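import Mathlib
import Pool.Agent.X21.Sp.S4

/-!
# Large subgroups of double covers of the alternating groups which avoid the central involution
-/

set_option autoImplicit false
set_option linter.unusedSectionVars false

namespace Pool.Agent.X21.Wr

open Pool.Agent.X21.Sp Equiv Equiv.Perm

variable {α : Type} [Fintype α] [DecidableEq α] {Γ : Type} [Group Γ] {π : Γ →* Perm α} {z : Γ}

/-- lifts of disjoint permutations commute if one of them is even -/
lemma comm_even (hs : IsSpin π z) {Y : Finset α} {g : Γ} (hg : ∀ y ∈ Y, π g y = y) {h : Γ}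
    (he : Perm.sign (π h) = 1) (hY : ∀ a, a ∉ Y → π h a = a) : g * h = h * g := by
  classical
  have key : ∀ τ : Perm {x // x ∈ Y}, τ ∈ Subgroup.closure {σ : Perm {x // x ∈ Y} | IsThreeCycle σ} →
      ∀ h : Γ, π h = ofSubtype τ → g * h = h * g := by
    intro τ hτ
    induction hτ using Subgroup.closure_induction with
    | mem τ h3 =>
      intro h hh
      apply hs.comm3
      · rw [hh]
        have hd : Perm.Disjoint (π g) (ofSubtype τ) := by
          intro x
          by_cases hx : x ∈ Y
          · left; exact hg x hx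
          · right; exact ofSubtype_apply_of_not_mem τ hx
        exact hd.commute
      · have h4 := pow_orderOf_eq_one τ
        rw [(show IsThreeCycle τ from h3).orderOf] at h4
        rw [hh, ← map_mul, ← map_mul]
        have h5 : τ * τ * τ = 1 := by rw [← h4, pow_succ, pow_two]
        rw [h5, map_one]
    | one =>
      intro h hh
      rw [map_one] at hh
      rcases (hs.ker h).mp hh with h1 | h1
      · rw [h1, mul_one, one_mul]
      · rw [h1, hs.central]
    | mul τ₁ τ₂ h1 h2 ih1 ih2 =>
      intro h hh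
      rw [closure_three_cycles_eq_alternating, mem_alternatingGroup] at h1 h2
      obtain ⟨u, hu⟩ := hs.surj (ofSubtype τ₁) (by rw [sign_ofSubtype]; exact h1)
      obtain ⟨v, hv⟩ := hs.surj (ofSubtype τ₂) (by rw [sign_ofSubtype]; exact h2)
      have c1 := ih1 u hu
      have c2 := ih2 v hv
      have c3 : g * (u * v) = (u * v) * g := by
        rw [← mul_assoc, c1, mul_assoc, c2, mul_assoc]
      have e : π h = π (u * v) := by rw [hh, map_mul, map_mul, hu, hv]
      rcases hs.lift_eq e with h7 | h7
      · rw [h7, c3]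
      · rw [h7, ← mul_assoc, hs.central, mul_assoc, c3, ← mul_assoc]
    | inv τ h1 ih =>
      intro h hh
      have c := ih h⁻¹ (by rw [map_inv, hh, map_inv, inv_inv])
      have c2 : Commute g h⁻¹ := c
      exact (Commute.inv_right_iff.mp c2)
  have hmem : ∀ x, x ∈ Y ↔ π h x ∈ Y := by
    intro x
    constructor
    · intro hx
      by_contra hcon
      have h1 := hY _ hcon
      have h2 := (π h).injective h1
      rw [h2] at hcon
      exact hcon hx
    · intro hx
      by_contra hcon
      rw [hY x hcon] at hx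
      exact hcon hx
  have e : ofSubtype ((π h).subtypePerm (p := fun x => x ∈ Y) (fun x => (hmem x).symm)) = π h :=
    ofSubtype_subtypePerm _ (fun x hx => by
      by_contra hcon
      exact hx (hY x hcon))
  refine key _ ?_ h e.symm
  rw [closure_three_cycles_eq_alternating, mem_alternatingGroup, ← sign_ofSubtype, e, he]

/-- a lift of a nontrivial product is conjugate to its product with `z` -/
lemma conj_dbl' (hs : IsSpin π z) {q : ℕ} {v : Perm α} (h : Dbl q v) (hq : q ≠ 0) :
    ∀ g : Γ, π g = v → ∃ y : Γ, Perm.sign (π y) = 1 ∧ (∀ x, v x = x → π y x = x) ∧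
      y * g * y⁻¹ = g * z := by
  cases h with
  | one => exact absurd rfl hq
  | @step q v a b c d h hv ha hb hc hd =>
    intro g hg
    obtain ⟨X, hX⟩ := hs.surj (swap a b * swap c d) (isDT_sign ⟨a, b, c, d, h, rfl⟩)
    obtain ⟨V, hV⟩ := hs.surj v hv.sign
    have hY' : Dist4 a c b d := ⟨h.2.1, h.1, h.2.2.1, h.2.2.2.1.symm, h.2.2.2.2.2, h.2.2.2.2.1⟩
    obtain ⟨Y, hY⟩ := hs.surj (swap a c * swap b d) (isDT_sign ⟨a, c, b, d, hY', rfl⟩)
    have hc1 : V * Y = Y * V := hs.comm_dt hY' hY (by rw [hV, ha]) (by rw [hV, hc])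
      (by rw [hV, hb]) (by rw [hV, hd])
    have hq1 := hs.quat h hX hY
    refine ⟨Y, by rw [hY]; exact isDT_sign ⟨a, c, b, d, hY', rfl⟩, ?_, ?_⟩
    · obtain ⟨h1, h2, h3, h4, h5, h6⟩ := h
      intro x hx
      have xa : x ≠ a := by
        rintro rfl
        simp only [Perm.mul_apply, ha] at hx
        rw [swap_apply_of_ne_of_ne h2 h3, swap_apply_left] at hx
        exact h1 hx.symm
      have xb : x ≠ b := by
        rintro rfl
        simp only [Perm.mul_apply, hb] at hx
        rw [swap_apply_of_ne_of_ne h4 h5, swap_apply_right] at hx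
        exact h1 hx
      have xc : x ≠ c := by
        rintro rfl
        simp only [Perm.mul_apply, hc] at hx
        rw [swap_apply_left, swap_apply_of_ne_of_ne h3.symm h5.symm] at hx
        exact h6 hx.symm
      have xd : x ≠ d := by
        rintro rfl
        simp only [Perm.mul_apply, hd] at hx
        rw [swap_apply_right, swap_apply_of_ne_of_ne h2.symm h4.symm] at hx
        exact h6 hx
      rw [hY, Perm.mul_apply, swap_apply_of_ne_of_ne xb xd, swap_apply_of_ne_of_ne xa xc]
    · rw [mul_inv_eq_iff_eq_mul]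
      have e : π g = π (X * V) := by rw [hg, map_mul, hX, hV]
      have h2 : Y * (X * V) = z * (X * V) * Y := by
        calc Y * (X * V) = (Y * X) * V := by simp only [mul_assoc]
          _ = z * (X * (Y * V)) := by rw [hq1]; simp only [mul_assoc]
          _ = z * (X * V) * Y := by rw [← hc1]; simp only [mul_assoc]
      rcases hs.lift_eq e with h3 | h3
      · rw [h3, h2, hs.central]
      · rw [h3]
        calc Y * (z * (X * V)) = (Y * z) * (X * V) := by simp only [mul_assoc]
          _ = z * (Y * (X * V)) := by rw [hs.central]; simp only [mul_assoc]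
          _ = z * (z * (X * V) * Y) := by rw [h2]
          _ = z * (X * V) * z * Y := by
              rw [mul_assoc z (X * V) z, hs.central (X * V)]
              simp only [mul_assoc]

/-- `D` consists of lifts of even permutations of `X`, does not contain `z`, and every element `d`
other than the identity is conjugate to `d z` under a lift of an even permutation of `X`. -/
structure Good (π : Γ →* Perm α) (z : Γ) (X : Finset α) (D : Subgroup Γ) : Prop where
  supp : ∀ d ∈ D, ∀ a, a ∉ X → π d a = a
  even : ∀ d ∈ D, Perm.sign (π d) = 1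
  zn : z ∉ D
  conj : ∀ d ∈ D, d ≠ 1 → ∃ x : Γ, Perm.sign (π x) = 1 ∧ (∀ a, a ∉ X → π x a = a) ∧
    x * d * x⁻¹ = d * z

lemma maps_to {σ : Perm α} {X : Finset α} (h : ∀ a, a ∉ X → σ a = a) {x : α} (hx : x ∈ X) :
    σ x ∈ X := by
  by_contra hcon
  have h1 := h _ hcon
  have h2 := σ.injective h1
  rw [h2] at hcon
  exact hcon hx

/-- the subgroup `M ∪ M t` -/
def adj (M : Subgroup Γ) (t : Γ) (ht : t * t = 1) (hn : ∀ m ∈ M, t * m * t ∈ M) : Subgroup Γ where
  carrier := {g | g ∈ M ∨ g * t ∈ M}
  one_mem' := Or.inl (one_mem _)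
  mul_mem' := by
    rintro g h (hg | hg) (hh | hh)
    · exact Or.inl (mul_mem hg hh)
    · right
      rw [mul_assoc]
      exact mul_mem hg hh
    · right
      have e : g * h * t = (g * t) * (t * h * t) := by
        calc g * h * t = g * (t * t) * h * t := by rw [ht, mul_one]
          _ = _ := by simp only [mul_assoc]
      rw [e]
      exact mul_mem hg (hn _ hh)
    · left
      have e : g * h = (g * t) * (t * (h * t) * t) := by
        calc g * h = g * (t * t) * h * (t * t) := by rw [ht, mul_one, mul_one]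
          _ = _ := by simp only [mul_assoc]
      rw [e]
      exact mul_mem hg (hn _ hh)
  inv_mem' := by
    rintro g (hg | hg)
    · exact Or.inl (inv_mem hg)
    · right
      have ht' : t⁻¹ = t := inv_eq_of_mul_eq_one_left ht
      have e : g⁻¹ * t = t * (g * t)⁻¹ * t := by
        rw [mul_inv_rev, ht', ← mul_assoc t t, ht, one_mul]
      rw [e]
      exact hn _ (inv_mem hg)

lemma mem_adj {M : Subgroup Γ} {t : Γ} {ht : t * t = 1} {hn : ∀ m ∈ M, t * m * t ∈ M} {g : Γ} :
    g ∈ adj M t ht hn ↔ g ∈ M ∨ g * t ∈ M := Iff.rfl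

lemma card_adj {M : Subgroup Γ} {t : Γ} (ht : t * t = 1) (hn : ∀ m ∈ M, t * m * t ∈ M)
    (htM : t ∉ M) : Nat.card (adj M t ht hn) = 2 * Nat.card M := by
  classical
  let F : M × Bool → adj M t ht hn := fun p =>
    if p.2 then ⟨(p.1 : Γ) * t, Or.inr (by rw [mul_assoc, ht, mul_one]; exact p.1.2)⟩
    else ⟨(p.1 : Γ), Or.inl p.1.2⟩
  have hF : Function.Bijective F := by
    constructor
    · rintro ⟨a, i⟩ ⟨b, j⟩ h
      have h' := congrArg Subtype.val h
      cases i <;> cases j
      · simp only [F, Bool.false_eq_true, if_false] at h'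
        exact Prod.ext (Subtype.ext h') rfl
      · exfalso
        simp only [F, Bool.false_eq_true, if_false, if_true] at h'
        apply htM
        have : t = (b : Γ)⁻¹ * a := by rw [h', inv_mul_cancel_left]
        rw [this]
        exact mul_mem (inv_mem b.2) a.2
      · exfalso
        simp only [F, Bool.false_eq_true, if_false, if_true] at h'
        apply htM
        have : t = (a : Γ)⁻¹ * b := by rw [← h', inv_mul_cancel_left]
        rw [this]
        exact mul_mem (inv_mem a.2) b.2
      · simp only [F, if_true] at h'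
        exact Prod.ext (Subtype.ext (mul_right_cancel h')) rfl
    · rintro ⟨g, hg | hg⟩
      · exact ⟨(⟨g, hg⟩, false), by simp [F]⟩
      · refine ⟨(⟨g * t, hg⟩, true), ?_⟩
        apply Subtype.ext
        simp only [F, if_true]
        rw [mul_assoc, ht, mul_one]
  rw [← Nat.card_congr (Equiv.ofBijective F hF), Nat.card_prod, mul_comm]
  simp

/-- products -/
lemma good_prod (hs : IsSpin π z) {X Y : Finset α} (hXY : Disjoint X Y) {D E : Subgroup Γ}
    (hD : Good π z X D) (hE : Good π z Y E) :
    ∃ M : Subgroup Γ, Good π z (X ∪ Y) M ∧ Nat.card M = Nat.card D * Nat.card E ∧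
      ∀ g : Γ, g ∈ M ↔ ∃ d ∈ D, ∃ e ∈ E, g = d * e := by
  classical
  have fixY : ∀ g : Γ, (∀ a, a ∉ X → π g a = a) → ∀ y ∈ Y, π g y = y := fun g hg y hy =>
    hg y (fun hx => Finset.disjoint_left.mp hXY hx hy)
  have fixX : ∀ g : Γ, (∀ a, a ∉ Y → π g a = a) → ∀ x ∈ X, π g x = x := fun g hg x hx =>
    hg x (fun hy => Finset.disjoint_left.mp hXY hx hy)
  have hcomm : ∀ (d : D) (e : E), Commute (D.subtype d) (E.subtype e) := fun d e =>
    comm_even hs (fixY _ (hD.supp _ d.2)) (hE.even _ e.2) (hE.supp _ e.2)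
  have hinf : ∀ g, g ∈ D → g ∈ E → g = 1 := by
    intro g h1 h2
    have h3 : π g = 1 := by
      ext a
      by_cases ha : a ∈ X
      · rw [hE.supp g h2 a (fun hy => Finset.disjoint_left.mp hXY ha hy)]; rfl
      · rw [hD.supp g h1 a ha]; rfl
    rcases (hs.ker g).mp h3 with h4 | h4
    · exact h4
    · rw [h4] at h1; exact absurd h1 hD.zn
  set f := MonoidHom.noncommCoprod D.subtype E.subtype hcomm with hf
  have hmem : ∀ g : Γ, g ∈ f.range ↔ ∃ d ∈ D, ∃ e ∈ E, g = d * e := by
    intro g
    constructor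
    · rintro ⟨⟨d, e⟩, rfl⟩
      exact ⟨d, d.2, e, e.2, rfl⟩
    · rintro ⟨d, hd, e, he, rfl⟩
      exact ⟨(⟨d, hd⟩, ⟨e, he⟩), rfl⟩
  have hinj : Function.Injective f := by
    rw [injective_iff_map_eq_one]
    rintro ⟨d, e⟩ h
    have h1 : (d : Γ) * e = 1 := h
    have h2 : (d : Γ) = (e : Γ)⁻¹ := eq_inv_of_mul_eq_one_left h1
    have h3 : (d : Γ) = 1 := hinf _ d.2 (by rw [h2]; exact inv_mem e.2)
    have h4 : (e : Γ) = 1 := by rw [h3, one_mul] at h1; exact h1
    exact Prod.ext (Subtype.ext h3) (Subtype.ext h4)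
  refine ⟨f.range, ⟨?_, ?_, ?_, ?_⟩, ?_, hmem⟩
  · intro g hg a ha
    obtain ⟨d, hd, e, he, rfl⟩ := (hmem g).mp hg
    rw [Finset.mem_union, not_or] at ha
    rw [map_mul, Perm.mul_apply, hE.supp e he a ha.2, hD.supp d hd a ha.1]
  · intro g hg
    obtain ⟨d, hd, e, he, rfl⟩ := (hmem g).mp hg
    rw [map_mul, map_mul, hD.even d hd, hE.even e he, one_mul]
  · intro hg
    obtain ⟨d, hd, e, he, h⟩ := (hmem z).mp hg
    have h1 : π d * π e = 1 := by
      rw [← map_mul, ← h]
      exact (hs.ker z).mpr (Or.inr rfl)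
    have h2 : π d = 1 := by
      ext a
      by_cases ha : a ∈ X
      · have h3 := congrArg (fun σ : Perm α => σ a) h1
        simp only [Perm.mul_apply] at h3
        rw [hE.supp e he a (fun hy => Finset.disjoint_left.mp hXY ha hy)] at h3
        exact h3
      · rw [hD.supp d hd a ha]; rfl
    rcases (hs.ker d).mp h2 with h4 | h4
    · rw [h4, one_mul] at h
      rw [h] at hE
      exact hE.zn he
    · rw [h4] at hd; exact hD.zn hd
  · intro g hg hg1
    obtain ⟨d, hd, e, he, rfl⟩ := (hmem g).mp hg
    by_cases hd1 : d = 1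
    · have he1 : e ≠ 1 := by
        rintro rfl
        exact hg1 (by rw [hd1, one_mul])
      obtain ⟨x, hx1, hx2, hx3⟩ := hE.conj e he he1
      refine ⟨x, hx1, fun a ha => hx2 a (fun h => ha (Finset.mem_union_right _ h)), ?_⟩
      rw [hd1, one_mul]
      exact hx3
    · obtain ⟨x, hx1, hx2, hx3⟩ := hD.conj d hd hd1
      refine ⟨x, hx1, fun a ha => hx2 a (fun h => ha (Finset.mem_union_left _ h)), ?_⟩
      have hc : x * e = e * x := comm_even hs (fixY _ hx2) (hE.even _ he) (hE.supp _ he)
      have hc' : e * x⁻¹ = x⁻¹ * e := by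
        rw [eq_inv_mul_iff_mul_eq, ← mul_assoc, hc, mul_assoc, mul_inv_cancel, mul_one]
      calc x * (d * e) * x⁻¹ = x * d * (e * x⁻¹) := by simp only [mul_assoc]
        _ = (x * d * x⁻¹) * e := by rw [hc']; simp only [mul_assoc]
        _ = d * (z * e) := by rw [hx3]; simp only [mul_assoc]
        _ = d * e * z := by rw [← hs.central]; simp only [mul_assoc]
  · rw [← Nat.card_congr (MonoidHom.ofInjective hinj).toEquiv, Nat.card_prod]

end Pool.Agent.X21.Wr
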