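import Mathlib
import Pool.Agent.X21.Wr.T1

/-!
# Doubling
-/

set_option autoImplicit false
set_option linter.unusedSectionVars false

namespace Pool.Agent.X21.Wr

open Pool.Agent.X21.Sp Equiv Equiv.Perm

variable {α : Type} [Fintype α] [DecidableEq α] {Γ : Type} [Group Γ] {π : Γ →* Perm α} {z : Γ}

/-- an involution which exchanges two disjoint sets of the same size -/
lemma exists_swap {X Y : Finset α} (hXY : Disjoint X Y) (hc : X.card = Y.card) :
    ∃ τ : Perm α, τ * τ = 1 ∧ (∀ x ∈ X, τ x ∈ Y) ∧ (∀ y ∈ Y, τ y ∈ X) ∧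
      (∀ a, a ∉ X → a ∉ Y → τ a = a) ∧ τ.support.card = 2 * X.card := by
  classical
  have e : X ≃ Y := Finset.equivOfCardEq hc
  let f : α → α := fun a =>
    if hx : a ∈ X then (e ⟨a, hx⟩ : α) else if hy : a ∈ Y then (e.symm ⟨a, hy⟩ : α) else a
  have fX : ∀ a (hx : a ∈ X), f a = e ⟨a, hx⟩ := fun a hx => dif_pos hx
  have fY : ∀ a (hy : a ∈ Y), f a = e.symm ⟨a, hy⟩ := fun a hy => by
    have hx : a ∉ X := fun hx => Finset.disjoint_left.mp hXY hx hy
    simp only [f]
    rw [dif_neg hx, dif_pos hy]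
  have fO : ∀ a, a ∉ X → a ∉ Y → f a = a := fun a hx hy => by
    simp only [f]
    rw [dif_neg hx, dif_neg hy]
  have hf : Function.Involutive f := by
    intro a
    by_cases hx : a ∈ X
    · rw [fX a hx, fY _ (e ⟨a, hx⟩).2]
      simp
    by_cases hy : a ∈ Y
    · rw [fY a hy, fX _ (e.symm ⟨a, hy⟩).2]
      simp
    · rw [fO a hx hy, fO a hx hy]
  have hs : hf.toPerm.support = X ∪ Y := by
    ext a
    rw [mem_support, Finset.mem_union]
    change f a ≠ a ↔ _
    constructor
    · intro h
      by_contra hcon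
      rw [not_or] at hcon
      exact h (fO a hcon.1 hcon.2)
    · rintro (hx | hy) h
      · rw [fX a hx] at h
        have h1 := (e ⟨a, hx⟩).2
        rw [h] at h1
        exact Finset.disjoint_left.mp hXY hx h1
      · rw [fY a hy] at h
        have h1 := (e.symm ⟨a, hy⟩).2
        rw [h] at h1
        exact Finset.disjoint_left.mp hXY h1 hy
  refine ⟨hf.toPerm, ?_, fun x hx => ?_, fun y hy => ?_, fun a hx hy => fO a hx hy, ?_⟩
  · ext a
    exact hf a
  · change f x ∈ Y
    rw [fX x hx]
    exact (e ⟨x, hx⟩).2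
  · change f y ∈ X
    rw [fY y hy]
    exact (e.symm ⟨y, hy⟩).2
  · rw [hs, Finset.card_union_of_disjoint hXY, ← hc]
    ring

/-- doubling -/
lemma good_double (hs : IsSpin π z) {X Y : Finset α} (hXY : Disjoint X Y) (hc : X.card = Y.card)
    {k : ℕ} (hk : k ≠ 0) (hX : X.card = 4 * k) {D : Subgroup Γ} (hD : Good π z X D) :
    ∃ M : Subgroup Γ, Good π z (X ∪ Y) M ∧ Nat.card M = 2 * Nat.card D ^ 2 := by
  classical
  obtain ⟨τ, ht1, ht2, ht3, ht4, ht5⟩ := exists_swap hXY hc
  have hdbl : Dbl (2 * k) τ := dbl_of_support _ _ ht1 (by rw [ht5, hX]; ring)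
  obtain ⟨t, ht⟩ := hs.surj τ hdbl.sign
  have tt : t * t = 1 := by
    rw [hs.sq_dbl hdbl t ht, pow_mul, pow_two, hs.sq, one_pow]
  have tinv : t⁻¹ = t := inv_eq_of_mul_eq_one_left tt
  have τinv : τ⁻¹ = τ := inv_eq_of_mul_eq_one_left ht1
  -- conjugation by `t`
  have hcfix : ∀ g : Γ, (∀ a, a ∉ X → π g a = a) → ∀ a, a ∉ Y → π (t * g * t) a = a := by
    intro g hg a ha
    rw [map_mul, map_mul, ht, Perm.mul_apply, Perm.mul_apply]
    have h1 : τ a ∉ X := by
      intro h
      apply ha
      have h2 := ht2 _ h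
      rw [← Perm.mul_apply, ht1] at h2
      exact h2
    rw [hg _ h1, ← Perm.mul_apply, ht1]
    rfl
  have hceven : ∀ g : Γ, Perm.sign (π g) = 1 → Perm.sign (π (t * g * t)) = 1 := by
    intro g hg
    rw [map_mul, map_mul, map_mul, map_mul, hg, ht, hdbl.sign, one_mul, one_mul]
  have hcc : ∀ g : Γ, t * (t * g * t) * t = g := by
    intro g
    calc t * (t * g * t) * t = (t * t) * g * (t * t) := by simp only [mul_assoc]
      _ = g := by rw [tt, one_mul, mul_one]
  have hcm : ∀ g h : Γ, t * (g * h) * t = (t * g * t) * (t * h * t) := by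
    intro g h
    calc t * (g * h) * t = t * g * (t * t) * h * t := by rw [tt]; simp only [mul_assoc, one_mul]
      _ = _ := by simp only [mul_assoc]
  have hcone : t * 1 * t = 1 := by rw [mul_one, tt]
  have hcz : t * z * t = z := by rw [hs.central, mul_assoc, tt, mul_one]
  have hci : ∀ g : Γ, t * g⁻¹ * t = (t * g * t)⁻¹ := by
    intro g
    rw [mul_inv_rev, mul_inv_rev, tinv, mul_assoc]
  let E : Subgroup Γ := D.map (MulAut.conj t).toMonoidHom
  have hEm : ∀ g : Γ, g ∈ E ↔ t * g * t ∈ D := by
    intro g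
    constructor
    · rintro ⟨d, hd, rfl⟩
      change t * (t * d * t⁻¹) * t ∈ D
      rw [tinv, hcc]
      exact hd
    · intro h
      refine ⟨t * g * t, h, ?_⟩
      change t * (t * g * t) * t⁻¹ = g
      rw [tinv, hcc]
  have hE : Good π z Y E := by
    refine ⟨?_, ?_, ?_, ?_⟩
    · intro g hg a ha
      have h1 := hcfix _ (hD.supp _ ((hEm g).mp hg)) a ha
      rwa [hcc] at h1
    · intro g hg
      have h1 := hceven _ (hD.even _ ((hEm g).mp hg))
      rwa [hcc] at h1
    · intro hg
      have h1 := (hEm z).mp hg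
      rw [hcz] at h1
      exact hD.zn h1
    · intro g hg hg1
      obtain ⟨x, hx1, hx2, hx3⟩ := hD.conj _ ((hEm g).mp hg) (by
        intro h
        apply hg1
        rw [← hcc g, h, hcone])
      refine ⟨t * x * t, hceven x hx1, hcfix x hx2, ?_⟩
      have h1 : t * (x * (t * g * t) * x⁻¹) * t = t * (t * g * t * z) * t := by rw [hx3]
      rw [hcm (x * (t * g * t)) x⁻¹, hcm x (t * g * t), hcc, hci, hcm (t * g * t) z, hcc,
        hcz] at h1
      exact h1
  obtain ⟨M, hM, hMc, hMm⟩ := good_prod hs hXY hD hE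
  have hcE : Nat.card E = Nat.card D :=
    (Nat.card_congr (D.equivMapOfInjective _ (MulAut.conj t).injective).toEquiv).symm
  have commDE : ∀ g h : Γ, (∀ a, a ∉ X → π g a = a) → (∀ a, a ∉ Y → π h a = a) →
      Perm.sign (π h) = 1 → g * h = h * g := by
    intro g h hg hh he
    exact comm_even hs (fun y hy => hg y (fun hx => Finset.disjoint_left.mp hXY hx hy)) he hh
  have hn : ∀ m ∈ M, t * m * t ∈ M := by
    intro m hm
    obtain ⟨d, hd, e, he, rfl⟩ := (hMm m).mp hm
    rw [hMm, hcm]
    refine ⟨t * e * t, (hEm e).mp he, t * d * t, (hEm _).mpr (by rw [hcc]; exact hd), ?_⟩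
    exact (commDE _ _ (hD.supp _ ((hEm e).mp he)) (hcfix _ (hD.supp _ hd))
      (hceven _ (hD.even _ hd))).symm
  obtain ⟨x₀, hx₀⟩ := Finset.card_pos.mp (show 0 < X.card by omega)
  -- elements of `M` preserve `X`
  have hMX : ∀ m ∈ M, π m x₀ ∈ X := by
    intro m hm
    obtain ⟨d, hd, e, he, rfl⟩ := (hMm m).mp hm
    rw [map_mul, Perm.mul_apply, hE.supp e he x₀ (fun hy => Finset.disjoint_left.mp hXY hx₀ hy)]
    exact maps_to (hD.supp d hd) hx₀
  have htX : ∀ m : Γ, (∀ a, a ∉ Y → π m a = a) → ∀ y ∈ Y, π m y ∈ Y := fun m h y hy =>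
    maps_to h hy
  have htM : t ∉ M := by
    intro h
    have h1 := hMX t h
    rw [ht] at h1
    exact Finset.disjoint_left.mp hXY h1 (ht2 x₀ hx₀)
  refine ⟨adj M t tt hn, ⟨?_, ?_, ?_, ?_⟩, ?_⟩
  · rintro g (hg | hg) a ha
    · exact hM.supp g hg a ha
    · have h1 := hM.supp _ hg (τ a) (by
        rw [Finset.mem_union, not_or] at ha ⊢
        rw [ht4 a ha.1 ha.2]
        exact ha)
      rw [map_mul, ht, Perm.mul_apply, ← Perm.mul_apply τ, ht1, Perm.one_apply] at h1
      rw [Finset.mem_union, not_or] at ha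
      rw [h1, ht4 a ha.1 ha.2]
  · rintro g (hg | hg)
    · exact hM.even g hg
    · have h1 := hM.even _ hg
      rw [map_mul, map_mul, ht, hdbl.sign, mul_one] at h1
      exact h1
  · rintro (hg | hg)
    · exact hM.zn hg
    · have h1 := hMX _ hg
      rw [map_mul, (hs.ker z).mpr (Or.inr rfl), one_mul, ht] at h1
      exact Finset.disjoint_left.mp hXY h1 (ht2 x₀ hx₀)
  · rintro g (hg | hg) hg1
    · exact hM.conj g hg hg1
    · obtain ⟨d, hd, e, he, hde⟩ := (hMm _).mp hg
      -- `g = e (a t) e⁻¹`, `a = d (t e t)`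
      have hg' : g = d * e * t := by rw [← hde, mul_assoc, tt, mul_one]
      set a : Γ := d * (t * e * t) with ha
      have haD : a ∈ D := mul_mem hd ((hEm e).mp he)
      have hde' : d * e = e * d := commDE _ _ (hD.supp _ hd) (hE.supp _ he) (hE.even _ he)
      have hge : g = e * (a * t) * e⁻¹ := by
        rw [eq_mul_inv_iff_mul_eq, hg', ha, hde']
        calc e * d * t * e = e * d * (t * e * (t * t)) := by
              rw [tt, mul_one]; simp only [mul_assoc]
          _ = e * (d * (t * e * t) * t) := by simp only [mul_assoc]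
      have key : ∃ y : Γ, Perm.sign (π y) = 1 ∧ (∀ b, b ∉ X ∪ Y → π y b = b) ∧
          y * (a * t) * y⁻¹ = a * t * z := by
        by_cases ha1 : a = 1
        · obtain ⟨y, hy1, hy2, hy3⟩ := conj_dbl' hs hdbl (by omega) t ht
          refine ⟨y, hy1, fun b hb => hy2 b ?_, ?_⟩
          · rw [Finset.mem_union, not_or] at hb
            exact ht4 b hb.1 hb.2
          · rw [ha1, one_mul]
            exact hy3
        · obtain ⟨x, hx1, hx2, hx3⟩ := hD.conj a haD ha1
          have c1 : x * (t * x * t) = (t * x * t) * x :=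
            commDE _ _ hx2 (hcfix _ hx2) (hceven _ hx1)
          have c2 : a * (t * x * t) = (t * x * t) * a :=
            commDE _ _ (hD.supp _ haD) (hcfix _ hx2) (hceven _ hx1)
          refine ⟨x * (t * x * t), ?_, ?_, ?_⟩
          · rw [map_mul, map_mul, hx1, hceven x hx1, one_mul]
          · intro b hb
            rw [Finset.mem_union, not_or] at hb
            rw [map_mul, Perm.mul_apply, hcfix x hx2 b hb.2, hx2 b hb.1]
          · rw [mul_inv_eq_iff_eq_mul]
            have c3 : t * (x * (t * x * t)) = (x * (t * x * t)) * t := by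
              calc t * (x * (t * x * t)) = (t * x * t) * x * t := by simp only [mul_assoc]
                _ = (x * (t * x * t)) * t := by rw [← c1]
            have c4 : x * a = a * z * x := by rw [← hx3, inv_mul_cancel_right]
            calc x * (t * x * t) * (a * t) = x * ((t * x * t) * a) * t := by
                  simp only [mul_assoc]
              _ = (x * a) * (t * x * t) * t := by rw [← c2]; simp only [mul_assoc]
              _ = a * z * ((x * (t * x * t)) * t) := by rw [c4]; simp only [mul_assoc]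
              _ = a * z * (t * (x * (t * x * t))) := by rw [c3]
              _ = a * (t * z) * (x * (t * x * t)) := by
                  rw [hs.central t]; simp only [mul_assoc]
              _ = a * t * z * (x * (t * x * t)) := by simp only [mul_assoc]
      obtain ⟨y, hy1, hy2, hy3⟩ := key
      refine ⟨e * y * e⁻¹, ?_, ?_, ?_⟩
      · rw [map_mul, map_mul, map_mul, map_mul, hy1, mul_one, ← map_mul, ← map_mul,
          mul_inv_cancel, map_one, map_one]
      · intro b hb
        have hb' := hb
        rw [Finset.mem_union, not_or] at hb'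
        have h1 : π e⁻¹ b = b := by
          rw [map_inv, Perm.inv_eq_iff_eq, hE.supp e he b hb'.2]
        rw [map_mul, map_mul, Perm.mul_apply, Perm.mul_apply, h1, hy2 b hb,
          hE.supp e he b hb'.2]
      · rw [hge]
        calc e * y * e⁻¹ * (e * (a * t) * e⁻¹) * (e * y * e⁻¹)⁻¹
            = e * (y * (a * t) * y⁻¹) * e⁻¹ := by group
          _ = e * (a * t) * (z * e⁻¹) := by rw [hy3]; simp only [mul_assoc]
          _ = e * (a * t) * e⁻¹ * z := by rw [← hs.central]; simp only [mul_assoc]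
  · rw [card_adj tt hn htM, hMc, hcE]
    ring

end Pool.Agent.X21.Wr
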