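import Mathlib
import Pool.Agent.X21.Wr.T2

/-!
# Subgroups of order `2 ^ (4 q - s)`, `q = ⌊n / 8⌋`, `s` its binary digit sum
-/

set_option autoImplicit false
set_option linter.unusedSectionVars false

namespace Pool.Agent.X21.Wr

open Pool.Agent.X21.Sp Equiv Equiv.Perm

section abs

variable {G : Type} [Group G] {z : G}

/-- the direct product with the central involution -/
lemma exists_B (hzc : ∀ g : G, g * z = z * g) (hz2 : z * z = 1) (D : Subgroup G) (hzD : z ∉ D)
    (hD : ∀ d ∈ D, d ≠ 1 → ∃ g : G, g * d * g⁻¹ = d * z) :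
    ∃ (B : Subgroup G) (hzB : z ∈ B) (φ : B →* ℂˣ), Nat.card B = 2 * Nat.card D ∧
      φ ⟨z, hzB⟩ ≠ 1 ∧ (∀ b, φ b * φ b = 1) ∧
      ∀ b ∈ B, b ≠ 1 → b ≠ z → ∃ g : G, g * b * g⁻¹ = b * z := by
  classical
  have hn : ∀ m ∈ D, z * m * z ∈ D := by
    intro m hm
    rw [← hzc, mul_assoc, hz2, mul_one]
    exact hm
  have hzB : z ∈ adj D z hz2 hn := Or.inr (by rw [hz2]; exact one_mem _)
  let φ : adj D z hz2 hn →* ℂˣ :=
    { toFun := fun g => if (g : G) ∈ D then 1 else -1
      map_one' := by simp [one_mem]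
      map_mul' := by
        rintro ⟨g, hg⟩ ⟨h, hh⟩
        change (if g * h ∈ D then (1 : ℂˣ) else -1) = (if g ∈ D then 1 else -1) *
          (if h ∈ D then 1 else -1)
        by_cases h1 : g ∈ D
        · by_cases h2 : h ∈ D
          · rw [if_pos h1, if_pos h2, if_pos (mul_mem h1 h2), one_mul]
          · rw [if_pos h1, if_neg h2, if_neg (fun h3 => h2 ?_), one_mul]
            have := mul_mem (inv_mem h1) h3
            rwa [inv_mul_cancel_left] at this
        · have h1' : g * z ∈ D := hg.resolve_left h1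
          by_cases h2 : h ∈ D
          · rw [if_neg h1, if_pos h2, if_neg (fun h3 => h1 ?_), mul_one]
            have := mul_mem h3 (inv_mem h2)
            rwa [mul_inv_cancel_right] at this
          · have h2' : h * z ∈ D := hh.resolve_left h2
            have h3 : g * h ∈ D := by
              have e : g * h = (g * z) * (h * z) := by
                calc g * h = g * (z * z) * h := by rw [hz2, mul_one]
                  _ = g * z * (z * h) := by simp only [mul_assoc]
                  _ = _ := by rw [← hzc h]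
              rw [e]
              exact mul_mem h1' h2'
            rw [if_neg h1, if_neg h2, if_pos h3]
            simp }
  refine ⟨adj D z hz2 hn, hzB, φ, card_adj hz2 hn hzD, ?_, ?_, ?_⟩
  · change (if z ∈ D then (1 : ℂˣ) else -1) ≠ 1
    rw [if_neg hzD]
    intro h
    have h1 : ((-1 : ℂˣ) : ℂ) = 1 := by rw [h]; rfl
    norm_num at h1
  · intro b
    change (if (b : G) ∈ D then (1 : ℂˣ) else -1) * (if (b : G) ∈ D then (1 : ℂˣ) else -1) = 1
    by_cases h : (b : G) ∈ D
    · rw [if_pos h, one_mul]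
    · rw [if_neg h]; simp
  · rintro b (hb | hb) h1 h2
    · exact hD b hb h1
    · have h3 : b * z ≠ 1 := by
        intro h
        apply h2
        have := congrArg (fun x => x * z) h
        simp only [one_mul] at this
        rw [mul_assoc, hz2, mul_one] at this
        exact this
      obtain ⟨g, hg⟩ := hD _ hb h3
      refine ⟨g, ?_⟩
      rw [mul_assoc b, hz2, mul_one] at hg
      -- `g (b z) g⁻¹ = b`
      have h4 : g * b * g⁻¹ * z = b := by
        calc g * b * g⁻¹ * z = g * b * (g⁻¹ * z) := by simp only [mul_assoc]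
          _ = g * (b * z) * g⁻¹ := by rw [hzc g⁻¹]; simp only [mul_assoc]
          _ = b := hg
      calc g * b * g⁻¹ = g * b * g⁻¹ * z * z := by rw [mul_assoc _ z z, hz2, mul_one]
        _ = b * z := by rw [h4]

end abs

variable {α : Type} [Fintype α] [DecidableEq α] {Γ : Type} [Group Γ] [Finite Γ]
  {π : Γ →* Perm α} {z : Γ}

/-- eight points -/
lemma good_eight (hs : IsSpin π z) {X : Finset α} (hX : X.card = 8) :
    ∃ D : Subgroup Γ, Good π z X D ∧ Nat.card D = 8 := by
  classical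
  have hc : Fintype.card (Fin 1 × R8) = Fintype.card X := by
    rw [Fintype.card_prod, card_R8, Fintype.card_fin, Fintype.card_coe, hX]
  let e : (Fin 1 × R8) ≃ X := Fintype.equivOfCardEq hc
  let f : Fin 1 × R8 ↪ α := e.toEmbedding.trans (Function.Embedding.subtype _)
  have hsq : ∀ b : pre π f, b * b = 1 := fun b => Subtype.ext (pre_sq hs f b.2)
  have hz1 : (⟨z, z_mem hs f⟩ : pre π f) ≠ 1 := fun h => hs.ne (congrArg Subtype.val h)
  obtain ⟨φ, hφ, hφ2⟩ := exists_quad hsq hz1
  let D : Subgroup Γ := φ.ker.map (pre π f).subtype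
  have hDm : ∀ g : Γ, g ∈ D ↔ ∃ h : g ∈ pre π f, φ ⟨g, h⟩ = 1 := by
    intro g
    constructor
    · rintro ⟨b, hb, rfl⟩
      exact ⟨b.2, hb⟩
    · rintro ⟨h, h1⟩
      exact ⟨⟨g, h⟩, h1, rfl⟩
  have hzD : z ∉ D := by
    intro h
    obtain ⟨h1, h2⟩ := (hDm z).mp h
    exact hφ h2
  have hfix : ∀ b ∈ pre π f, ∀ a, a ∉ X → π b a = a := by
    intro b hb a ha
    obtain ⟨w, hw⟩ := hb
    rw [← hw]
    change (tr 1 w).viaEmbedding f a = a
    apply viaEmbedding_apply_of_notMem
    rintro ⟨x, rfl⟩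
    exact ha (e x).2
  have hpm : ∀ b : pre π f, φ b = 1 ∨ φ b = φ ⟨z, z_mem hs f⟩ := by
    have hu : ∀ u : ℂˣ, u * u = 1 → u = 1 ∨ u = -1 := by
      intro u hu
      have h1 : (u : ℂ) * u = 1 := by rw [← Units.val_mul, hu, Units.val_one]
      have h2 : ((u : ℂ) - 1) * (u + 1) = 0 := by linear_combination h1
      rcases mul_eq_zero.mp h2 with h3 | h3
      · left; exact Units.ext (by rw [Units.val_one]; linear_combination h3)
      · right; exact Units.ext (by rw [Units.val_neg, Units.val_one]; linear_combination h3)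
    intro b
    rcases hu _ (hφ2 b) with h | h
    · left; exact h
    · right
      rcases hu _ (hφ2 ⟨z, z_mem hs f⟩) with h1 | h1
      · exact absurd h1 hφ
      · rw [h, h1]
  refine ⟨D, ⟨?_, ?_, hzD, ?_⟩, ?_⟩
  · intro d hd a ha
    exact hfix d ((hDm d).mp hd).1 a ha
  · intro d hd
    rcases el_dbl f (v := π d) ((hDm d).mp hd).1 with h | ⟨q, -, h⟩
    · rw [h, map_one]
    · exact h.sign
  · intro d hd hd1
    rcases el_dbl f (v := π d) ((hDm d).mp hd).1 with h | ⟨q, hq, h⟩
    · exfalso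
      rcases (hs.ker d).mp h with h2 | h2
      · exact hd1 h2
      · rw [h2] at hd; exact hzD hd
    · obtain ⟨y, hy1, hy2, hy3⟩ := conj_dbl' hs h (by omega) d rfl
      exact ⟨y, hy1, fun a ha => hy2 a (hfix d ((hDm d).mp hd).1 a ha), hy3⟩
  · have hn : ∀ m ∈ D, z * m * z ∈ D := by
      intro m hm
      rw [← hs.central, mul_assoc, hs.sq, mul_one]
      exact hm
    have e1 : adj D z hs.sq hn = pre π f := by
      ext g
      rw [mem_adj, hDm, hDm]
      constructor
      · rintro (⟨h, -⟩ | ⟨h, -⟩)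
        · exact h
        · have := mul_mem h (z_mem hs f)
          rwa [mul_assoc, hs.sq, mul_one] at this
      · intro hg
        rcases hpm ⟨g, hg⟩ with h | h
        · left; exact ⟨hg, h⟩
        · right
          refine ⟨mul_mem hg (z_mem hs f), ?_⟩
          have h3 : (⟨g * z, mul_mem hg (z_mem hs f)⟩ : pre π f) = ⟨g, hg⟩ * ⟨z, z_mem hs f⟩ := rfl
          rw [h3, map_mul, h, hφ2]
    have e2 := card_adj hs.sq hn hzD
    rw [e1, pre_card hs f] at e2
    omega

lemma split {X : Finset α} {m k : ℕ} (h : X.card = m + k) :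
    ∃ X₁ X₂ : Finset α, Disjoint X₁ X₂ ∧ X₁ ∪ X₂ = X ∧ X₁.card = m ∧ X₂.card = k := by
  classical
  obtain ⟨X₁, h1, h2⟩ := Finset.exists_subset_card_eq (s := X) (n := m) (by omega)
  refine ⟨X₁, X \ X₁, Finset.disjoint_sdiff, Finset.union_sdiff_of_subset h1, h2, ?_⟩
  rw [Finset.card_sdiff_of_subset h1, h, h2]
  omega

/-- a power of two -/
lemma good_block (hs : IsSpin π z) : ∀ (j : ℕ) (X : Finset α), X.card = 8 * 2 ^ j →
    ∃ D : Subgroup Γ, Good π z X D ∧ 2 * Nat.card D = 2 ^ (2 ^ (j + 2)) := by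
  intro j
  induction j with
  | zero =>
    intro X hX
    obtain ⟨D, hD, hc⟩ := good_eight hs (X := X) (by rw [hX]; rfl)
    exact ⟨D, hD, by rw [hc]; rfl⟩
  | succ j ih =>
    intro X hX
    obtain ⟨X₁, X₂, h1, h2, h3, h4⟩ := split (X := X) (m := 8 * 2 ^ j) (k := 8 * 2 ^ j)
      (by rw [hX, pow_succ]; ring)
    obtain ⟨D, hD, hc⟩ := ih X₁ h3
    obtain ⟨M, hM, hMc⟩ := good_double hs h1 (by rw [h3, h4]) (k := 2 * 2 ^ j) (by positivity)
      (by rw [h3]; ring) hD
    rw [h2] at hM
    refine ⟨M, hM, ?_⟩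
    rw [hMc]
    have e : 2 ^ (j + 1 + 2) = 2 ^ (j + 2) + 2 ^ (j + 2) := by
      rw [show j + 1 + 2 = (j + 2) + 1 from rfl, pow_succ]; ring
    rw [e, pow_add, ← hc]
    ring

/-- binary digit sum -/
def ds (q : ℕ) : ℕ := (Nat.digits 2 q).sum

lemma ds_add {j q : ℕ} (h : q < 2 ^ j) : ds (2 ^ j + q) = 1 + ds q := by
  have h1 : (Nat.digits 2 q).length ≤ j := (Nat.digits_length_le_iff (by norm_num) q).mpr h
  have h2 := Nat.digits_append_zeroes_append_digits (b := 2) (k := j - (Nat.digits 2 q).length)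
    (m := 1) (n := q) (by norm_num) (by norm_num)
  rw [show (Nat.digits 2 q).length + (j - (Nat.digits 2 q).length) = j by omega, mul_one] at h2
  unfold ds
  rw [add_comm (2 ^ j) q, ← h2]
  simp
  ring

lemma ds_le (q : ℕ) : ds q ≤ q := Nat.digit_sum_le 2 q

/-- all sets -/
lemma good_all (hs : IsSpin π z) : ∀ (q : ℕ) (X : Finset α), X.card = 8 * q →
    ∃ D : Subgroup Γ, Good π z X D ∧ Nat.card D * 2 ^ (ds q) = 2 ^ (4 * q) := by
  intro q
  induction q using Nat.strong_induction_on with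
  | _ q ih =>
    intro X hX
    rcases Nat.eq_zero_or_pos q with rfl | hq
    · refine ⟨⊥, ⟨?_, ?_, ?_, ?_⟩, ?_⟩
      · intro d hd a ha
        rw [Subgroup.mem_bot.mp hd, map_one]; rfl
      · intro d hd
        rw [Subgroup.mem_bot.mp hd, map_one, map_one]
      · rw [Subgroup.mem_bot]; exact hs.ne
      · intro d hd hd1
        exact absurd (Subgroup.mem_bot.mp hd) hd1
      · simp [ds]
    · obtain ⟨j, h1, h2⟩ : ∃ j : ℕ, 2 ^ j ≤ q ∧ q < 2 ^ (j + 1) :=
        ⟨Nat.log 2 q, Nat.pow_log_le_self 2 hq.ne', Nat.lt_pow_succ_log_self (by norm_num) q⟩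
      obtain ⟨q', rfl⟩ := Nat.exists_eq_add_of_le h1
      have h3 : q' < 2 ^ j := by rw [pow_succ] at h2; omega
      obtain ⟨X₁, X₂, e1, e2, e3, e4⟩ := split (X := X) (m := 8 * 2 ^ j) (k := 8 * q')
        (by rw [hX]; ring)
      obtain ⟨D, hD, hc⟩ := good_block hs j X₁ e3
      obtain ⟨E, hE, hc'⟩ := ih q' (by have : 0 < 2 ^ j := by positivity
                                       omega) X₂ e4
      obtain ⟨M, hM, hMc, -⟩ := good_prod hs e1 hD hE
      rw [e2] at hM
      refine ⟨M, hM, ?_⟩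
      rw [hMc, ds_add h3, pow_add, pow_one]
      have e5 : 4 * (2 ^ j + q') = 2 ^ (j + 2) + 4 * q' := by rw [pow_add]; ring
      rw [e5, pow_add, ← hc, ← hc']
      ring

end Pool.Agent.X21.Wr
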