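import Mathlib
import Pool.Agent.X21.Wr.T3

/-!
# The gap for groups which contain a double cover of an alternating group
-/

set_option autoImplicit false
set_option linter.unusedSectionVars false

namespace Pool.Agent.X21.Wr

open Pool.Agent.H302R2 Pool.Agent.H302R5 Pool.Agent.H541R3.ART Pool.Agent.W446.AS Pool.Agent.X21.Sy
  Pool.Agent.X21.Qd Pool.Agent.X21.Ce Pool.Agent.X21.Sp Equiv Equiv.Perm

section

variable {G : Type} [Group G] [Finite G]

/-- a subgroup of a group containing a double cover -/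
theorem spin_sub {n : ℕ} (H : Subgroup G) (π : H →* Perm (Fin n)) (ζ : H) (hs : IsSpin π ζ) :
    ∃ D : Subgroup G, (ζ : G) ∉ D ∧
      Nat.card D = 2 ^ (4 * (n / 8) - (Nat.digits 2 (n / 8)).sum) ∧
      ∀ d ∈ D, d ≠ 1 → ∃ g : G, g * d * g⁻¹ = d * ζ := by
  classical
  obtain ⟨X, -, hX⟩ := Finset.exists_subset_card_eq (s := (Finset.univ : Finset (Fin n)))
    (n := 8 * (n / 8)) (by rw [Finset.card_univ, Fintype.card_fin]; omega)
  obtain ⟨D, hD, hc⟩ := good_all hs (n / 8) X hX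
  refine ⟨D.map H.subtype, ?_, ?_, ?_⟩
  · rintro ⟨d, hd, h⟩
    have h1 : d = ζ := Subtype.ext h
    rw [h1] at hd
    exact hD.zn hd
  · rw [← Nat.card_congr (D.equivMapOfInjective H.subtype H.subtype_injective).toEquiv]
    have hle : ds (n / 8) ≤ 4 * (n / 8) := (ds_le _).trans (by omega)
    have h2 : 2 ^ (4 * (n / 8)) = 2 ^ (4 * (n / 8) - ds (n / 8)) * 2 ^ ds (n / 8) := by
      rw [← pow_add, Nat.sub_add_cancel hle]
    rw [h2] at hc
    exact Nat.eq_of_mul_eq_mul_right (by positivity) hc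
  · rintro _ ⟨d, hd, rfl⟩ h1
    obtain ⟨x, -, -, hx⟩ := hD.conj d hd (fun h => h1 (by rw [h]; rfl))
    exact ⟨x, congrArg Subtype.val hx⟩

/-- complements -/
theorem gap_of_compl {z : G} (hz1 : z ≠ 1) (hz2 : z * z = 1) (hzc : ∀ g : G, g * z = z * g)
    (D : Subgroup G) (hzD : z ∉ D) (hD : ∀ d ∈ D, d ≠ 1 → ∃ g : G, g * d * g⁻¹ = d * z) :
    (∀ (s₀ : ℂ) (A : ArtinData G s₀), Gap A z (Nat.card D)) ∧
    ∀ C : CentralData G, Gap C.toArtinData z (2 * Nat.card D) := by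
  obtain ⟨B, hzB, φ, hc, h1, h2, h3⟩ := exists_B hzc hz2 D hzD hD
  refine ⟨fun s₀ A => gap_of_card A hz1 hz2 hzc B hzB φ h1 h3 hc, fun C => ?_⟩
  rw [← hc]
  exact gap_of_quad C hz1 hz2 hzc B hzB φ h1 h2 h3

theorem gap_spin' {n : ℕ} (H : Subgroup G) (π : H →* Perm (Fin n)) (ζ : H) (hs : IsSpin π ζ)
    (hzc : ∀ g : G, g * ζ = ζ * g) :
    (∀ (s₀ : ℂ) (A : ArtinData G s₀),
      Gap A (ζ : G) (2 ^ (4 * (n / 8) - (Nat.digits 2 (n / 8)).sum))) ∧
    ∀ C : CentralData G,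
      Gap C.toArtinData (ζ : G) (2 * 2 ^ (4 * (n / 8) - (Nat.digits 2 (n / 8)).sum)) := by
  obtain ⟨D, hzD, hc, hD⟩ := spin_sub H π ζ hs
  have := gap_of_compl (fun h => hs.ne (Subtype.ext h)) (congrArg Subtype.val hs.sq) hzc D hzD hD
  rw [hc] at this
  exact this

end

end Pool.Agent.X21.Wr
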